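import Pool.Agent.Helper80.UV.Core

/-!
# UW: many zeros in a window, general form with two kernel scales

`X` the scale of the kernel of the average, `X2` the scale of the majorant of the count, `h` half the length of the window,
`c` the mean number of zeros in it, `w` the weight, `V` its mass.
-/

set_option autoImplicit false
open MeasureTheory Set Filter Topology
open Pool.Agent.Helper57.Zeta Pool.Agent.Helper57.LH Pool.Agent.Helper57.ED Pool.Agent.Helper54.LG
open Pool.Agent.Helper93.UG (zc)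

namespace Pool.Agent.Helper80.UW

open Pool.Agent.Helper80.UG (choice_ge SS_cont SS_bdd NX_meas)

/-- the averaged count under the weight -/
lemma avg_mean {w : ℝ → ℝ} {X h c K : ℝ} (hwc : Continuous w) (hwi : Integrable w) (hw0 : ∀ t, 0 ≤ w t)
    (hh : 0 < h)
    (hA : Integrable (fun t => w t * |X / (2 * Real.pi) * (∫ u in (-h)..h, Helper69.UG.NX X (t + u)) - c +
      X / (2 * Real.pi) * ∫ u in (-h)..h, SS X (t + u)|))
    (hAK : ∫ t, w t * |X / (2 * Real.pi) * (∫ u in (-h)..h, Helper69.UG.NX X (t + u)) - c +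
      X / (2 * Real.pi) * ∫ u in (-h)..h, SS X (t + u)| ≤ K) :
    Integrable (fun t => w t * (X / (2 * Real.pi) * ∫ u in (-h)..h, Helper69.UG.NX X (t + u))) ∧
    c * (∫ t, w t) - (∫ t, w t * (X / (2 * Real.pi) * ∫ u in (-h)..h, SS X (t + u))) - K ≤
      ∫ t, w t * (X / (2 * Real.pi) * ∫ u in (-h)..h, Helper69.UG.NX X (t + u)) := by
  obtain ⟨BS, hBS0, hBS⟩ := SS_bdd X
  have hle : -h ≤ h := by linarith
  set A : ℝ → ℝ := fun t => X / (2 * Real.pi) * ∫ u in (-h)..h, Helper69.UG.NX X (t + u) with hAd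
  set S : ℝ → ℝ := fun t => X / (2 * Real.pi) * ∫ u in (-h)..h, SS X (t + u) with hSd
  have hAm : StronglyMeasurable A := by
    have h1 : Measurable (Function.uncurry fun t u : ℝ => Helper69.UG.NX X (t + u)) :=
      (NX_meas X).comp (measurable_fst.add measurable_snd)
    have h2 := h1.stronglyMeasurable.integral_prod_right (ν := volume.restrict (Ioc (-h) h))
    have h3 : A = fun t => X / (2 * Real.pi) * ∫ u in Ioc (-h) h, Helper69.UG.NX X (t + u) := by
      funext t
      rw [hAd]
      simp only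
      rw [intervalIntegral.integral_of_le hle]
    rw [h3]
    exact h2.const_mul _
  have hSm : StronglyMeasurable S := by
    have h1 : Measurable (Function.uncurry fun t u : ℝ => SS X (t + u)) :=
      (SS_cont X).measurable.comp (measurable_fst.add measurable_snd)
    have h2 := h1.stronglyMeasurable.integral_prod_right (ν := volume.restrict (Ioc (-h) h))
    have h3 : S = fun t => X / (2 * Real.pi) * ∫ u in Ioc (-h) h, SS X (t + u) := by
      funext t
      rw [hSd]
      simp only
      rw [intervalIntegral.integral_of_le hle]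
    rw [h3]
    exact h2.const_mul _
  have hSi : Integrable (fun t => w t * S t) := by
    refine hwi.mul_bdd (c := |X / (2 * Real.pi)| * (BS * |h - -h|)) hSm.aestronglyMeasurable (Eventually.of_forall fun t => ?_)
    rw [hSd, Real.norm_eq_abs, abs_mul]
    refine mul_le_mul_of_nonneg_left ?_ (abs_nonneg _)
    have h1 := intervalIntegral.norm_integral_le_of_norm_le_const (a := -h) (b := h) (C := BS) (f := fun u => SS X (t + u))
      fun u _ => by
        rw [Real.norm_eq_abs]
        exact hBS _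
    rwa [Real.norm_eq_abs] at h1
  set F : ℝ → ℝ := fun t => w t * (A t - c + S t) with hF
  have hFi : Integrable F := by
    refine hA.mono' ?_ (Eventually.of_forall fun t => ?_)
    · exact (hwc.stronglyMeasurable.mul ((hAm.sub stronglyMeasurable_const).add hSm)).aestronglyMeasurable
    · rw [hF, Real.norm_eq_abs, abs_mul, abs_of_nonneg (hw0 t)]
  have hFK : |∫ t, F t| ≤ K := by
    refine le_trans (abs_integral_le_integral_abs) (le_trans (le_of_eq ?_) hAK)
    refine integral_congr_ae (Eventually.of_forall fun t => ?_)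
    rw [hF]
    simp only
    rw [abs_mul, abs_of_nonneg (hw0 t)]
  have hAe : (fun t => w t * A t) = fun t => F t + c * w t - w t * S t := by
    funext t
    rw [hF]
    ring
  have hAi : Integrable (fun t => w t * A t) := by
    rw [hAe]
    exact (hFi.add (hwi.const_mul c)).sub hSi
  refine ⟨hAi, ?_⟩
  have h1 : ∫ t, w t * A t = (∫ t, F t) + c * (∫ t, w t) - ∫ t, w t * S t := by
    have h0 : Integrable (fun t => F t + c * w t) := hFi.add (hwi.const_mul c)
    rw [hAe, integral_sub h0 hSi, integral_add hFi (hwi.const_mul c), integral_const_mul]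
  have h2 := (abs_le.1 hFK).1
  rw [h1]
  linarith

/-- many zeros in a window, general form -/
theorem many_core {w : ℝ → ℝ} {X X2 h T c a a' Cs K V Cw : ℝ} (hX : 1 ≤ X) (hh : 0 < h) (hT : 16 ≤ T) (hc1 : 1 ≤ c)
    (hcT : 16 * c ≤ Real.log T)
    (hwc : Continuous w) (hwi : Integrable w) (hw0 : ∀ t, 0 ≤ w t) (hV : 1 ≤ V) (hm : |(∫ t, w t) - V| ≤ V / T)
    (hCs : 0 ≤ Cs) (hK : 0 ≤ K) (hCw : 0 ≤ Cw)
    (hA : Integrable (fun t => w t * |X / (2 * Real.pi) * (∫ u in (-h)..h, Helper69.UG.NX X (t + u)) - c +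
      X / (2 * Real.pi) * ∫ u in (-h)..h, SS X (t + u)|))
    (hAK : ∫ t, w t * |X / (2 * Real.pi) * (∫ u in (-h)..h, Helper69.UG.NX X (t + u)) - c +
      X / (2 * Real.pi) * ∫ u in (-h)..h, SS X (t + u)| ≤ K * V)
    (hSb : ∫ t, w t * (X / (2 * Real.pi) * ∫ u in (-h)..h, SS X (t + u)) ≤ -(a * V))
    (hD : ∀ u, |u| ≤ √T → Integrable (fun t => w t * |Helper69.UG.NX X2 (t + u) - c + SS X2 (t + u)|) ∧
      ∫ t, w t * |Helper69.UG.NX X2 (t + u) - c + SS X2 (t + u)| ≤ K * V)
    (hs : ∀ u, ∫ t, w t * SS X2 (t + u) ^ 2 ≤ Cs * c * V)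
    (hwle : ∀ t, (zc (Ico (t - h) (t + h)) : ℝ) ≤ Cw * Helper69.UG.NX X2 t)
    (htail : ∫⁻ s in {s : ℝ | √T < |s|}, ENNReal.ofReal (X / (2 * Real.pi) * qk 0 (X * s)) *
      ∫⁻ t, ENNReal.ofReal (w t * (zc (Ico (t + s - h) (t + s + h)) : ℝ)) ≤ ENNReal.ofReal V)
    (ha' : 0 ≤ a') (ha'c : a' ≤ c)
    (hM : 8 + 4 * (K + Cw * (Cs + 2 * K + 1)) ≤ a - a') :
    ∃ s : ℝ, |s| ≤ √T ∧ V / c ≤ ∫ t in {t : ℝ | t + s ∈ {t : ℝ | c + a' ≤ (zc (Ico (t - h) (t + h)) : ℝ)}}, w t := by
  have hc0 : 0 < c := by linarith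
  have hT0 : 0 < T := by linarith
  have hpi := Real.pi_pos
  have hX0 : 0 < X := by linarith
  have hcT' : c ≤ T := by
    have h1 := Real.log_le_sub_one_of_pos hT0
    linarith
  have hV0 : 0 < V := by linarith
  set m := ∫ t, w t with hmdef
  obtain ⟨hm1, hm2⟩ := abs_le.mp hm
  have hcVT : c * (V / T) ≤ V := by
    rw [mul_div_assoc', div_le_iff₀ hT0, mul_comm]
    exact mul_le_mul_of_nonneg_left hcT' hV0.le
  obtain ⟨BS, hBS0, hBS⟩ := SS_bdd X2
  obtain ⟨hJi, hJ⟩ := avg_mean hwc hwi hw0 hh hA hAK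
  set J := ∫ t, w t * (X / (2 * Real.pi) * ∫ u in (-h)..h, Helper69.UG.NX X (t + u)) with hJdef
  rw [← hmdef] at hJ
  have hJ1 : (c - 1 + a - K) * V ≤ J := by
    have h2 : c * (V - V / T) ≤ c * m := mul_le_mul_of_nonneg_left (by linarith) hc0.le
    have h3 : c * (V - V / T) = c * V - c * (V / T) := by ring
    have h4 : (c - 1 + a - K) * V = c * V - V + a * V - K * V := by ring
    linarith
  obtain ⟨hki, hk1, hkt⟩ := Pool.Agent.Helper24.UG.qk_mass hX0
  set k : ℝ → ℝ := fun s => X / (2 * Real.pi) * qk 0 (X * s) with hk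
  have hkc : Continuous k := continuous_const.mul ((qk_cont 0).comp (by fun_prop))
  have hk0 : ∀ s, 0 ≤ k s := fun s => mul_nonneg (by positivity) (qk_zero_nonneg _)
  set z : ℝ → ℝ := fun t => (zc (Ico (t - h) (t + h)) : ℝ) with hz
  have hzm : Measurable z := Pool.Agent.Helper24.UG.zc_meas h
  have hz0 : ∀ t, 0 ≤ z t := fun t => Nat.cast_nonneg _
  have hton := Pool.Agent.Helper82.UV.tonelli (A := fun t => X / (2 * Real.pi) * ∫ u in (-h)..h, Helper69.UG.NX X (t + u))
    hwc hw0 hzm hz0 hkc hk0 (fun t => Pool.Agent.Helper24.UG.window_gen hX0 t hh.le) hJi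
  rw [← hJdef] at hton
  set am := (a + a') / 2 with ham
  have hd1 : a - am = (a - a') / 2 := by rw [ham]; ring
  have hd2 : am - a' = (a - a') / 2 := by rw [ham]; ring
  have hA2 : 0 ≤ Cw * (Cs + 2 * K + 1) := by positivity
  have ham0 : 0 ≤ am := by linarith
  have ha0 : 0 ≤ V * (c + am) := by positivity
  obtain ⟨s, hsB, hE⟩ := choice_ge (B := √T) (e := V) (a := V * (c + am)) hk0 hki hk1 hton.ge htail hV0.le ha0 (by
    refine lt_of_lt_of_le ?_ hJ1
    have h1 : V * (c + am) + V = (c + am + 1) * V := by ring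
    rw [h1]
    apply mul_lt_mul_of_pos_right _ hV0
    linarith)
  refine ⟨s, hsB, ?_⟩
  set y := c + a' with hy
  have hy0 : 0 ≤ y := by linarith
  have hyc : y ≤ 2 * c := by linarith
  set G : Set ℝ := {t : ℝ | y ≤ z (t + s)} with hG
  have hGm : MeasurableSet G := measurableSet_le measurable_const (hzm.comp (measurable_id.add_const s))
  have hGeq : {t : ℝ | t + s ∈ {t : ℝ | y ≤ (zc (Ico (t - h) (t + h)) : ℝ)}} = G := rfl
  rw [hGeq]
  set mG : ℝ := ∫ t in G, w t with hmG
  have hmG0 : 0 ≤ mG := setIntegral_nonneg hGm fun t _ => hw0 t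
  obtain ⟨hDi, hDb⟩ := hD s hsB
  have hSi : Integrable (fun t => w t * SS X2 (t + s) ^ 2) := by
    refine hwi.mul_bdd (c := BS ^ 2) (((SS_cont X2).comp (continuous_add_const s)).pow 2).aestronglyMeasurable
      (Eventually.of_forall fun t => ?_)
    rw [Real.norm_of_nonneg (sq_nonneg _), ← sq_abs]
    exact pow_le_pow_left₀ (abs_nonneg _) (hBS _) 2
  set g : ℝ → ℝ := fun t => 3 / 2 * c * w t + 1 / (2 * c) * (w t * SS X2 (t + s) ^ 2) +
    w t * |Helper69.UG.NX X2 (t + s) - c + SS X2 (t + s)| with hg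
  have hgi : Integrable g := ((hwi.const_mul _).add (hSi.const_mul _)).add hDi
  have hg0 : ∀ t, 0 ≤ g t := by
    intro t
    have := hw0 t
    positivity
  have hZg : ∀ t, w t * z (t + s) ≤ Cw * g t := by
    intro t
    have hw := hw0 t
    have h1 : z (t + s) ≤ Cw * Helper69.UG.NX X2 (t + s) := hwle (t + s)
    have h2 : Helper69.UG.NX X2 (t + s) ≤ c + |SS X2 (t + s)| + |Helper69.UG.NX X2 (t + s) - c + SS X2 (t + s)| := by
      have h3 := le_abs_self (Helper69.UG.NX X2 (t + s) - c + SS X2 (t + s))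
      have h4 := neg_abs_le (SS X2 (t + s))
      linarith
    have h3 : |SS X2 (t + s)| ≤ c / 2 + 1 / (2 * c) * SS X2 (t + s) ^ 2 := by
      rw [← sq_abs (SS X2 (t + s))]
      set y := |SS X2 (t + s)|
      have h4 : c / 2 + 1 / (2 * c) * y ^ 2 - y = 1 / (2 * c) * (y - c) ^ 2 := by
        field_simp
        ring
      have h5 : 0 ≤ 1 / (2 * c) * (y - c) ^ 2 := by positivity
      linarith
    have h4 : z (t + s) ≤ Cw * (3 / 2 * c + 1 / (2 * c) * SS X2 (t + s) ^ 2 +
        |Helper69.UG.NX X2 (t + s) - c + SS X2 (t + s)|) :=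
      h1.trans (mul_le_mul_of_nonneg_left (by linarith) hCw)
    calc w t * z (t + s) ≤ w t * (Cw * (3 / 2 * c + 1 / (2 * c) * SS X2 (t + s) ^ 2 +
        |Helper69.UG.NX X2 (t + s) - c + SS X2 (t + s)|)) := mul_le_mul_of_nonneg_left h4 hw
      _ = _ := by rw [hg]; ring
  have hgG : ∫ t in G, g t ≤ 3 / 2 * c * mG + (Cs / 2 + K) * V := by
    have h1 : ∫ t in G, g t = 3 / 2 * c * mG + 1 / (2 * c) * (∫ t in G, w t * SS X2 (t + s) ^ 2) +
        ∫ t in G, w t * |Helper69.UG.NX X2 (t + s) - c + SS X2 (t + s)| := by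
      have hi1 : Integrable (fun t => 3 / 2 * c * w t + 1 / (2 * c) * (w t * SS X2 (t + s) ^ 2)) :=
        (hwi.const_mul _).add (hSi.const_mul _)
      have h2 := integral_add (μ := volume.restrict G) (f := fun t => 3 / 2 * c * w t + 1 / (2 * c) * (w t * SS X2 (t + s) ^ 2))
        (g := fun t => w t * |Helper69.UG.NX X2 (t + s) - c + SS X2 (t + s)|)
        hi1.integrableOn hDi.integrableOn
      have h3 := integral_add (μ := volume.restrict G) (f := fun t => 3 / 2 * c * w t)
        (g := fun t => 1 / (2 * c) * (w t * SS X2 (t + s) ^ 2)) (hwi.const_mul _).integrableOn (hSi.const_mul _).integrableOn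
      rw [h3, integral_const_mul, integral_const_mul] at h2
      exact h2
    have h2 : ∫ t in G, w t * SS X2 (t + s) ^ 2 ≤ Cs * c * V :=
      (setIntegral_le_integral hSi (Eventually.of_forall fun t => mul_nonneg (hw0 t) (sq_nonneg _))).trans (hs s)
    have h3 : ∫ t in G, w t * |Helper69.UG.NX X2 (t + s) - c + SS X2 (t + s)| ≤ K * V :=
      (setIntegral_le_integral hDi (Eventually.of_forall fun t => mul_nonneg (hw0 t) (abs_nonneg _))).trans hDb
    have h4 : 1 / (2 * c) * (∫ t in G, w t * SS X2 (t + s) ^ 2) ≤ Cs / 2 * V := by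
      calc 1 / (2 * c) * (∫ t in G, w t * SS X2 (t + s) ^ 2) ≤ 1 / (2 * c) * (Cs * c * V) :=
            mul_le_mul_of_nonneg_left h2 (by positivity)
        _ = Cs / 2 * V := by field_simp
    rw [h1]
    linarith
  have hm00 : 0 ≤ m := integral_nonneg fun t => hw0 t
  have hsplit : V * (c + am) ≤ Cw * (3 / 2 * c * mG + (Cs / 2 + K) * V) + y * m := by
    have h1 : ∫⁻ t, ENNReal.ofReal (w t * z (t + s)) ≤
        ENNReal.ofReal (Cw * (3 / 2 * c * mG + (Cs / 2 + K) * V) + y * m) := by
      rw [← lintegral_add_compl _ hGm, ENNReal.ofReal_add (by positivity) (by positivity)]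
      refine add_le_add ?_ ?_
      · calc ∫⁻ t in G, ENNReal.ofReal (w t * z (t + s)) ≤ ∫⁻ t in G, ENNReal.ofReal (Cw * g t) :=
              lintegral_mono fun t => ENNReal.ofReal_le_ofReal (hZg t)
          _ = ENNReal.ofReal (∫ t in G, Cw * g t) := by
              rw [ofReal_integral_eq_lintegral_ofReal (hgi.const_mul Cw).integrableOn
                (Eventually.of_forall fun t => mul_nonneg hCw (hg0 t))]
          _ ≤ _ := by
              apply ENNReal.ofReal_le_ofReal
              rw [integral_const_mul]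
              exact mul_le_mul_of_nonneg_left hgG hCw
      · calc ∫⁻ t in Gᶜ, ENNReal.ofReal (w t * z (t + s)) ≤
              ∫⁻ t in Gᶜ, ENNReal.ofReal (y * w t) := by
              refine setLIntegral_mono' hGm.compl fun t ht => ENNReal.ofReal_le_ofReal ?_
              rw [hG, mem_compl_iff, mem_ofPred_eq, not_le] at ht
              rw [mul_comm]
              exact mul_le_mul_of_nonneg_right ht.le (hw0 t)
          _ ≤ ∫⁻ t, ENNReal.ofReal (y * w t) := setLIntegral_le_lintegral _ _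
          _ = ENNReal.ofReal (y * m) := by
              rw [← ofReal_integral_eq_lintegral_ofReal (hwi.const_mul _)
                (Eventually.of_forall fun t => mul_nonneg hy0 (hw0 t)), integral_const_mul]
    exact (ENNReal.ofReal_le_ofReal_iff (by positivity)).1 (hE.trans h1)
  have hym : y * m ≤ y * V + 2 * V := by
    have h1 : y * m ≤ y * (V + V / T) := mul_le_mul_of_nonneg_left (by linarith) hy0
    have h2 : y * (V / T) ≤ 2 * c * (V / T) := mul_le_mul_of_nonneg_right hyc (by positivity)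
    have h3 : y * (V + V / T) = y * V + y * (V / T) := by ring
    linarith
  have h1 : (am - a' - 2 - Cw * (Cs / 2 + K)) * V ≤ 3 / 2 * Cw * (c * mG) := by
    have h2 : V * (c + am) - y * V = (am - a') * V := by rw [hy]; ring
    have h3 : Cw * (3 / 2 * c * mG + (Cs / 2 + K) * V) = 3 / 2 * Cw * (c * mG) + Cw * (Cs / 2 + K) * V := by ring
    linarith
  have h3 : (2 + 3 / 2 * Cw) * V ≤ (am - a' - 2 - Cw * (Cs / 2 + K)) * V := by
    apply mul_le_mul_of_nonneg_right _ hV0.le
    have h4 : Cw * (Cs + 2 * K + 1) = Cw * Cs + 2 * (Cw * K) + Cw := by ring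
    have h5 : Cw * (Cs / 2 + K) = Cw * Cs / 2 + Cw * K := by ring
    have h6 : 0 ≤ Cw * Cs := by positivity
    have h7 : 0 ≤ Cw * K := by positivity
    linarith
  rw [div_le_iff₀ hc0]
  have h4 : (2 + 3 / 2 * Cw) * V ≤ 3 / 2 * Cw * (c * mG) := h3.trans h1
  by_contra hcon
  push Not at hcon
  have h5 : 3 / 2 * Cw * (c * mG) ≤ 3 / 2 * Cw * V := mul_le_mul_of_nonneg_left (by linarith) (by positivity)
  linarith

end Pool.Agent.Helper80.UW
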