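import Pool.Agent.Helper69.UW.Defs
import Pool.Agent.Helper80.UW.Core

/-!
# UW: Q2, many zeros in a window
-/

set_option autoImplicit false
open MeasureTheory Set Filter Topology
open Pool.Agent.Helper57.Zeta Pool.Agent.Helper57.LH Pool.Agent.Helper57.ED Pool.Agent.Helper54.LG
open Pool.Agent.Helper93.UG (zc IsOrd sp)
open Pool.Agent.Helper69.UG (pt NX XX NR NM WW)
open Pool.Agent.Helper69.UV (ww HH)

namespace Pool.Agent.Helper80.UW

open Pool.Agent.Helper69.UW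

variable {δ : ℝ}

lemma RR_cont (T c m v : ℝ) : Continuous (RR δ T c m v) := by
  unfold RR
  refine continuous_finsetSum _ fun n hn => ?_
  have hn0 : (n : ℂ) ≠ 0 := by
    have := (Finset.mem_Icc.1 hn).1
    exact_mod_cast (by omega : n ≠ 0)
  refine continuous_const.mul (Continuous.const_cpow (by fun_prop) (Or.inl hn0))

lemma WW_pos {T : ℝ} (hT : 0 < T) : 0 < WW T := Real.rpow_pos_of_pos hT _

lemma WW_le {T : ℝ} (hT : 1 ≤ T) : WW T ≤ T := by
  unfold WW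
  calc T ^ (4095 / 4096 : ℝ) ≤ T ^ (1 : ℝ) := Real.rpow_le_rpow_of_exponent_le hT (by norm_num)
    _ = T := Real.rpow_one T

lemma wt_cont {T : ℝ} (hT : 0 < T) (c m v τ : ℝ) : Continuous (wt δ T c m v τ) := by
  unfold wt PW
  have hW := WW_pos hT
  have hR := RR_cont (δ := δ) T c m v
  refine Continuous.mul (Continuous.div continuous_const (by fun_prop) fun t => ?_) (by fun_prop)
  have := Real.pi_pos
  positivity

lemma wt_nonneg {T : ℝ} (hT : 0 < T) (c m v τ t : ℝ) : 0 ≤ wt δ T c m v τ t :=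
  mul_nonneg (PW_pos (WW_pos hT) _).le (sq_nonneg _)

/-- the trivial bound for the resonator -/
lemma RR_le {T c m v : ℝ} (hT : 1 ≤ T) (h : ∀ n, |rr δ T c m v n| ≤ T ^ (1 / 192 : ℝ)) (t : ℝ) :
    ‖RR δ T c m v t‖ ^ 2 ≤ T := by
  have hT0 : 0 < T := by linarith
  have h1 : ‖RR δ T c m v t‖ ≤ T ^ (1 / 2 : ℝ) := by
    calc ‖RR δ T c m v t‖ ≤ ∑ n ∈ Finset.Icc 1 (NR T), ‖(rr δ T c m v n : ℂ) * (n : ℂ) ^ (-((1 / 2 : ℂ) + (t : ℂ) * Complex.I))‖ :=
          norm_sum_le _ _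
      _ ≤ ∑ n ∈ Finset.Icc 1 (NR T), T ^ (1 / 192 : ℝ) := by
          refine Finset.sum_le_sum fun n hn => ?_
          have hn1 : 1 ≤ n := (Finset.mem_Icc.1 hn).1
          rw [norm_mul, Complex.norm_real, Real.norm_eq_abs, Complex.norm_natCast_cpow_of_pos (by omega)]
          have h2 : (n : ℝ) ^ (-((1 / 2 : ℂ) + (t : ℂ) * Complex.I)).re ≤ 1 := by
            refine Real.rpow_le_one_of_one_le_of_nonpos (by exact_mod_cast hn1) ?_
            simp only [Complex.neg_re, Complex.add_re, Complex.mul_re, Complex.ofReal_re, Complex.I_re, mul_zero,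
              Complex.ofReal_im, Complex.I_im, mul_one, sub_self, add_zero]
            norm_num
          calc |rr δ T c m v n| * (n : ℝ) ^ (-((1 / 2 : ℂ) + (t : ℂ) * Complex.I)).re ≤ T ^ (1 / 192 : ℝ) * 1 :=
                mul_le_mul (h n) h2 (by positivity) (by positivity)
            _ = _ := mul_one _
      _ = (NR T : ℝ) * T ^ (1 / 192 : ℝ) := by
          rw [Finset.sum_const, Nat.card_Icc, Nat.add_sub_cancel, nsmul_eq_mul]
      _ ≤ T ^ (1 / 8 : ℝ) * T ^ (1 / 192 : ℝ) := by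
          refine mul_le_mul_of_nonneg_right ?_ (by positivity)
          unfold NR
          exact Nat.floor_le (by positivity)
      _ = T ^ (1 / 8 + 1 / 192 : ℝ) := (Real.rpow_add hT0 _ _).symm
      _ ≤ T ^ (1 / 2 : ℝ) := Real.rpow_le_rpow_of_exponent_le hT (by norm_num)
  calc ‖RR δ T c m v t‖ ^ 2 ≤ (T ^ (1 / 2 : ℝ)) ^ 2 := pow_le_pow_left₀ (norm_nonneg _) h1 2
    _ = T := by
        rw [← Real.sqrt_eq_rpow, Real.sq_sqrt hT0.le]

/-- consequences of admissibility -/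
lemma adm_facts : ∃ T0 : ℝ, 16 ≤ T0 ∧ ∀ c0 T c m : ℝ, T0 ≤ T → 1 ≤ c0 → Adm c0 T c m →
    1 ≤ XX T m ∧ 0 < XX T c ∧ 0 < HH T c ∧ HH T c ≤ 1 ∧ 64 * c ≤ Real.log T ∧ XX T c * HH T c = Real.pi := by
  obtain ⟨T0, hT016, hT0⟩ := Adm.c_le 64
  refine ⟨T0, hT016, fun c0 T c m hT hc0 hA => ?_⟩
  have h1 := hT0 c0 T c m hT hA
  have hc : 0 < c := by linarith [hA.1]
  have hm1 : 1 ≤ m := hA.2.1
  have hmc : m ≤ c := hA.m_le_c hc0
  have hm0 : 0 < m := by linarith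
  have hlT0 : 0 < Real.log T := by linarith
  have hpi := Real.pi_pos
  refine ⟨?_, ?_, ?_, ?_, h1, ?_⟩
  · unfold XX
    rw [le_div_iff₀ hm0]
    linarith
  · unfold XX
    positivity
  · unfold HH
    positivity
  · unfold HH
    rw [div_le_one hlT0]
    have h6 : Real.pi * c ≤ 4 * c := mul_le_mul_of_nonneg_right Real.pi_lt_four.le hc.le
    linarith
  · unfold XX HH
    field_simp

/-- Q2 from R2, R8, R10, R11, K6, K6e -/
theorem many_of (hδ : 0 < δ) (hδ1 : δ ≤ 1 / 32)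
    (rr_bd : ∃ c0 T0 : ℝ, ∀ T c m v : ℝ, T0 ≤ T → Adm c0 T c m → |v| = vv δ c m →
      ∀ n, |rr δ T c m v n| ≤ T ^ (1 / 192 : ℝ) ∧ 1 ≤ VV δ T c m v)
    (wmass : ∃ c0 T0 : ℝ, ∀ T c m v : ℝ, T0 ≤ T → Adm c0 T c m → |v| = vv δ c m →
      ∀ τ : ℝ, Integrable (wt δ T c m v τ) ∧ |(∫ t, wt δ T c m v τ t) - VV δ T c m v| ≤ VV δ T c m v / T)
    (eWS : ∃ c0 T0 : ℝ, ∀ T c m v : ℝ, T0 ≤ T → Adm c0 T c m → |v| = vv δ c m →
      ∀ τ : ℝ, (1 + 10 * δ) * √m * |v| * VV δ T c m v ≤ v * ∫ t, wt δ T c m v τ t * WS T c m t)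
    (vSS : ∃ C c0 T0 : ℝ, 0 < C ∧ ∀ T c m v : ℝ, T0 ≤ T → Adm c0 T c m →
      |v| = vv δ c m → ∀ M τ u : ℝ, m ≤ M → M ≤ 2 * c →
      ∫ t, wt δ T c m v τ t * SS (XX T M) (t + u) ^ 2 ≤ C * M * VV δ T c m v)
    (nx_dev : ∃ C c0 T0 : ℝ, 0 < C ∧ ∀ T c m v : ℝ, T0 ≤ T → Adm c0 T c m →
      |v| = vv δ c m →
      ∀ M τ u : ℝ, m ≤ M → M ≤ 2 * c → T ≤ τ → τ ≤ 2 * T → |u| ≤ √T →
      Integrable (fun t => wt δ T c m v τ t * |NX (XX T M) (t + u) - M + SS (XX T M) (t + u)|) ∧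
      ∫ t, wt δ T c m v τ t * |NX (XX T M) (t + u) - M + SS (XX T M) (t + u)| ≤ C * VV δ T c m v)
    (wavg : ∃ C c0 T0 : ℝ, 0 < C ∧ ∀ T c m v : ℝ, T0 ≤ T → Adm c0 T c m →
      |v| = vv δ c m → ∀ τ : ℝ, T ≤ τ → τ ≤ 2 * T →
      Integrable (fun t => wt δ T c m v τ t *
        |XX T m / (2 * Real.pi) * (∫ w in (-(HH T c))..(HH T c), NX (XX T m) (t + w)) - c + WS T c m t|) ∧
      ∫ t, wt δ T c m v τ t *
        |XX T m / (2 * Real.pi) * (∫ w in (-(HH T c))..(HH T c), NX (XX T m) (t + w)) - c + WS T c m t| ≤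
          C * VV δ T c m v) :
    ∃ c0 T0 : ℝ, ∀ T c m v : ℝ, T0 ≤ T → Adm c0 T c m → |v| = vv δ c m → v < 0 →
    ∀ τ, T ≤ τ → τ ≤ 2 * T → ∃ s : ℝ, |s| ≤ √T ∧
      VV δ T c m v / c ≤ ∫ t in {t : ℝ | t + s ∈
        {t : ℝ | c + √m ≤ (zc (Ico (t - HH T c) (t + HH T c)) : ℝ)}}, wt δ T c m v τ t := by
  obtain ⟨cr, Tr, hrr⟩ := rr_bd
  obtain ⟨cm, Tm, hmass⟩ := wmass
  obtain ⟨ce, Te, heWS⟩ := eWS
  obtain ⟨Cs, cs, Ts, hCs, hvSS⟩ := vSS
  obtain ⟨Cd, cd, Td, hCd, hnx⟩ := nx_dev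
  obtain ⟨Ca, ca, Tv, hCa, havg⟩ := wavg
  obtain ⟨Tt, hTt16, htail⟩ := Pool.Agent.Helper80.UV.tail
  obtain ⟨Ta, hTa16, hadm⟩ := adm_facts
  have hpi := Real.pi_pos
  set Cw : ℝ := 48 / 11 * (1 + Real.pi ^ 2) with hCw
  have hCw0 : 0 ≤ Cw := by positivity
  set K : ℝ := max Cd Ca with hK
  have hK0 : 0 ≤ K := hCd.le.trans (le_max_left _ _)
  set Q : ℝ := 8 + 4 * (K + Cw * (Cs + 2 * K + 1)) with hQ
  have hQ0 : 0 ≤ Q := by positivity
  refine ⟨max (max (max cr cm) (max ce cs)) (max (max cd ca) ((Q / (10 * δ)) ^ 2 + 2)),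
    max (max (max Tr Tm) (max Te Ts)) (max (max Td Tv) (max Tt Ta)), ?_⟩
  intro T c m v hT hA hv hv0 τ hτ1 hτ2
  simp only [max_le_iff] at hT
  obtain ⟨⟨⟨hTr, hTm⟩, hTe, hTs⟩, ⟨hTd, hTv⟩, hTt, hTa⟩ := hT
  have hAr : Adm cr T c m := hA.mono ((le_max_left _ _).trans ((le_max_left _ _).trans (le_max_left _ _)))
  have hAm : Adm cm T c m := hA.mono ((le_max_right _ _).trans ((le_max_left _ _).trans (le_max_left _ _)))
  have hAe : Adm ce T c m := hA.mono ((le_max_left _ _).trans ((le_max_right _ _).trans (le_max_left _ _)))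
  have hAs : Adm cs T c m := hA.mono ((le_max_right _ _).trans ((le_max_right _ _).trans (le_max_left _ _)))
  have hAd : Adm cd T c m := hA.mono ((le_max_left _ _).trans ((le_max_left _ _).trans (le_max_right _ _)))
  have hAa : Adm ca T c m := hA.mono ((le_max_right _ _).trans ((le_max_left _ _).trans (le_max_right _ _)))
  have hAQ : Adm ((Q / (10 * δ)) ^ 2 + 2) T c m := hA.mono ((le_max_right _ _).trans (le_max_right _ _))
  have hT16 : 16 ≤ T := by linarith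
  have hT0 : 0 < T := by linarith
  have hQ2 : 0 ≤ (Q / (10 * δ)) ^ 2 := sq_nonneg _
  obtain ⟨hX1, hXc0, hH0, hH1, hlog, hXH⟩ := hadm _ T c m hTa (by linarith) hAQ
  have hX0 : 0 < XX T m := by linarith
  have hm1 : 1 ≤ m := hA.2.1
  have hmc : m ≤ c := hAQ.m_le_c (by linarith)
  have hm0 : 0 < m := by linarith
  have hc0 : 0 < c := by linarith
  have hc3 : 3 ≤ c := hA.1
  have hmQ : (Q / (10 * δ)) ^ 2 + 2 ≤ m := hAQ.le_m (by linarith)
  set V := VV δ T c m v with hVd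
  have hV1 : 1 ≤ V := (hrr T c m v hTr hAr hv 0).2
  have hV0 : 0 < V := by linarith
  obtain ⟨hwi, hwm⟩ := hmass T c m v hTm hAm hv τ
  rw [← hVd] at hwm
  have hτabs : |τ| ≤ 2 * T := by rw [abs_of_nonneg (by linarith)]; exact hτ2
  have hsqrtT : 1 ≤ √T := Real.one_le_sqrt.2 (by linarith)
  have hsq : 0 < √m := Real.sqrt_pos.2 hm0
  have hwc : Continuous (wt δ T c m v τ) := wt_cont hT0 c m v τ
  have hw0 : ∀ t, 0 ≤ wt δ T c m v τ t := wt_nonneg hT0 c m v τ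
  have hwV : ∫ t, wt δ T c m v τ t ≤ 2 * V := by
    have h1 := (abs_le.1 hwm).2
    have h2 : V / T ≤ V := div_le_self hV0.le (by linarith)
    linarith
  -- the mean of the prime sum
  have hE := heWS T c m v hTe hAe hv τ
  rw [← hVd] at hE
  set E : ℝ := ∫ t, wt δ T c m v τ t * WS T c m t with hEd
  have hE2 : E ≤ -(((1 + 10 * δ) * √m) * V) := by
    rw [abs_of_neg hv0] at hE
    have h1 : (-v) * ((1 + 10 * δ) * √m * V) ≤ (-v) * (-E) := by
      have h2 : (1 + 10 * δ) * √m * -v * V = (-v) * ((1 + 10 * δ) * √m * V) := by ring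
      have h3 : v * E = (-v) * (-E) := by ring
      rw [h2, h3] at hE
      exact hE
    have h2 := le_of_mul_le_mul_left h1 (by linarith)
    linarith
  -- the threshold
  have hthr : Q ≤ (1 + 10 * δ) * √m - √m := by
    have h1 : Q / (10 * δ) ≤ √m := Real.le_sqrt_of_sq_le (by linarith)
    rw [div_le_iff₀ (by positivity)] at h1
    linarith
  have hsm : √m ≤ c := by
    have h1 : √m ≤ m := by
      rw [Real.sqrt_le_left (by linarith)]
      nlinarith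
    linarith
  obtain ⟨s, hs, hfin⟩ := many_core (w := wt δ T c m v τ) (X := XX T m) (X2 := XX T c) (h := HH T c) (T := T) (c := c)
    (a := (1 + 10 * δ) * √m) (a' := √m) (Cs := Cs) (K := K) (V := V) (Cw := Cw) hX1 hH0 hT16 (by linarith) (by linarith)
    hwc hwi hw0 hV1 hwm hCs.le hK0 hCw0
    (havg T c m v hTv hAa hv τ hτ1 hτ2).1
    ((havg T c m v hTv hAa hv τ hτ1 hτ2).2.trans (mul_le_mul_of_nonneg_right (le_max_right _ _) hV0.le))
    hE2
    (fun u hu => by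
      have h1 := hnx T c m v hTd hAd hv c τ u hmc (by linarith) hτ1 hτ2 hu
      exact ⟨h1.1, h1.2.trans (mul_le_mul_of_nonneg_right (le_max_left _ _) hV0.le)⟩)
    (fun u => hvSS T c m v hTs hAs hv c τ u hmc (by linarith))
    (fun t => by
      have h1 := Pool.Agent.Helper24.UG.window_le_gen hXc0 (HH T c) t
      rw [hXH] at h1
      exact h1)
    (htail hTt (WW_pos hT0) (WW_le (by linarith)) hτabs
      (fun t => ⟨sq_nonneg _, RR_le (by linarith) (fun n => (hrr T c m v hTr hAr hv n).1) t⟩)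
      (fun _ => rfl) hwc hwi hV1 hwV hX1 hH0.le hH1)
    hsq.le hsm hthr
  exact ⟨s, hs, hfin⟩

end Pool.Agent.Helper80.UW
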